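import Mathlib

set_option autoImplicit false

namespace Pool.Agent.Results.MP_2eee52_co.No

open Matrix SimpleGraph

/-- `A ∈ 𝒮(G)`. -/
def InS {n : ℕ} (G : SimpleGraph (Fin n)) (A : Matrix (Fin n) (Fin n) ℝ) : Prop :=
  A.IsSymm ∧ ∀ i j, i ≠ j → (A i j ≠ 0 ↔ G.Adj i j)

/-- The strong spectral property. -/
def SSP {n : ℕ} (A : Matrix (Fin n) (Fin n) ℝ) : Prop :=
  ∀ X : Matrix (Fin n) (Fin n) ℝ, X.IsSymm → A ⊙ X = 0 → (1 : Matrix (Fin n) (Fin n) ℝ) ⊙ X = 0 →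
    A * X - X * A = 0 → X = 0

/-- `G` is an SSP graph. -/
def IsSSP {n : ℕ} (G : SimpleGraph (Fin n)) : Prop := ∀ A, InS G A → SSP A

def E : List (ℕ × ℕ) := [(0, 2), (1, 3), (1, 5), (2, 4), (2, 5), (3, 4), (3, 5), (4, 5), (3, 6), (6, 7)]

def Gr (n : ℕ) : SimpleGraph (Fin n) := fromRel fun a b => (a.val, b.val) ∈ E

instance (n : ℕ) : DecidableRel (Gr n).Adj := fun _ _ => inferInstanceAs (Decidable (_ ∧ _))

def r : Matrix (Fin 7) (Fin 7) ℕ :=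
  !![0, 7, 0, 8, 7, 7, 8;
    8, 0, 4, 0, 1, 0, 4;
    0, 3, 0, 6, 0, 0, 7;
    9, 0, 7, 0, 0, 0, 0;
    8, 2, 0, 0, 0, 0, 6;
    8, 0, 0, 0, 0, 0, 5;
    9, 3, 8, 0, 7, 6, 0]

theorem cert : ∀ k j, k = j ∨ (Gr 7).Adj k j ∨ r j k < r k j ∨ ∃ i, (Gr 7).Adj i k ∧
    (∀ t, t = k ∨ (¬ (Gr 7).Adj i t ∧ i ≠ t) ∨ r t j < r k j) ∧
    ∀ t, r i t < r k j ∨ (¬ (Gr 7).Adj t j ∧ t ≠ j) := by decide +kernel

theorem yes : IsSSP (Gr 7) := by
  intro A ⟨_, hA⟩ X hX h1 h2 h3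
  have z : ∀ i t, ¬ (Gr 7).Adj i t ∧ i ≠ t → A i t = 0 := fun i t h =>
    not_not.1 fun c => h.1 ((hA i t h.2).1 c)
  have : ∀ m k j, r k j = m → X k j = 0 := by
    intro m
    induction m using Nat.strong_induction_on with
    | _ m ih =>
      intro k j e
      subst e
      rcases cert k j with rfl | h | h | ⟨i, h, p, q⟩
      · simpa using congrFun (congrFun h2 k) k
      · exact (mul_eq_zero.1 (congrFun (congrFun h1 k) j)).resolve_left ((hA k j h.ne).2 h)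
      · rw [← hX.apply k j]; exact ih _ h _ _ rfl
      · have e := congrFun (congrFun h3 i) j
        rw [Matrix.sub_apply, mul_apply, mul_apply, Finset.sum_eq_single k, Finset.sum_eq_zero, sub_zero] at e
        · exact (mul_eq_zero.1 e).resolve_left ((hA i k h.ne).2 h)
        · intro t _
          rcases q t with c | c
          · rw [ih _ c _ _ rfl, zero_mul]
          · rw [z _ _ c, mul_zero]
        · intro t _ ht
          rcases p t with c | c | c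
          · exact absurd c ht
          · rw [z _ _ c, zero_mul]
          · rw [ih _ c _ _ rfl, mul_zero]
        · simp
  ext k j
  exact this _ k j rfl

def A : Matrix (Fin 8) (Fin 8) ℤ :=
  !![-1, 0, -1, 0, 0, 0, 0, 0;
    0, 1, 0, -1, 0, -2, 0, 0;
    -1, 0, -1, 0, 1, 1, 0, 0;
    0, -1, 0, 1, 1, -1, 2, 0;
    0, 0, 1, 1, 0, 1, 0, 0;
    0, -2, 1, -1, 1, 2, 0, 0;
    0, 0, 0, 2, 0, 0, 2, 1;
    0, 0, 0, 0, 0, 0, 1, 0]

def X : Matrix (Fin 8) (Fin 8) ℤ :=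
  !![0, 2, 0, 0, -2, 2, 2, -4;
    2, 0, 0, 0, 0, 0, 0, -2;
    0, 0, 0, 2, 0, 0, -2, 2;
    0, 0, 2, 0, 0, 0, 0, 0;
    -2, 0, 0, 0, 0, 0, 1, -3;
    2, 0, 0, 0, 0, 0, 1, -1;
    2, 0, -2, 0, 1, 1, 0, 0;
    -4, -2, 2, 0, -3, -1, 0, 0]

theorem no : ¬ IsSSP (Gr 8) := by
  intro h
  have a : ∀ i j, A j i = A i j ∧ X j i = X i j ∧ A i j * X i j = 0 ∧ X i i = 0 ∧
      (A * X) i j = (X * A) i j ∧ (i ≠ j → (A i j ≠ 0 ↔ (Gr 8).Adj i j)) := by decide +kernel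
  have := h (A.map (↑)) ⟨by ext i j; simp [(a i j).1], fun i j e => by simpa using (a i j).2.2.2.2.2 e⟩
    (X.map (↑)) (by ext i j; simp [(a i j).2.1]) (by ext i j; simpa using (a i j).2.2.1)
    (by ext i j; by_cases e : i = j <;> simp [e, (a j j).2.2.2.1]) (by
      ext i j
      have := congrArg (Int.cast (R := ℝ)) (a i j).2.2.2.2.1
      simpa [mul_apply, sub_eq_zero] using this)
  have := congrFun (congrFun this 0) 1
  simp [X] at this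

theorem result : ∃ (n : ℕ) (G : SimpleGraph (Fin n)) (v : Fin n) (H : SimpleGraph (Fin (n + 1))),
    (∃! u, G.Adj v u) ∧ (∀ i j, H.Adj i.castSucc j.castSucc ↔ G.Adj i j) ∧
    (∀ i, H.Adj i.castSucc (Fin.last n) ↔ i = v) ∧ IsSSP G ∧ ¬ IsSSP H :=
  ⟨7, Gr 7, 6, Gr 8, ⟨3, by decide +kernel, by decide +kernel⟩, by decide +kernel, by decide +kernel,
    yes, no⟩

end Pool.Agent.Results.MP_2eee52_co.No
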